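import Pool.Agent.W787.PS.StmD

/-!
Project PS: part SML, localisation makes the Fourier L¹ norm small.
-/

open MeasureTheory Set Metric Filter Topology
open scoped ContDiff FourierTransform ComplexConjugate

noncomputable section

namespace Pool.Agent.W19.PSM

open Pool.Agent.W787.PS

theorem hcs_of_zero {f : ℂ → ℂ} (h : ∀ x ∉ closedBall (0 : ℂ) 2, f x = 0) :
    HasCompactSupport f :=
  HasCompactSupport.intro (isCompact_closedBall (0 : ℂ) 2) h

theorem iter_zero {f : ℂ → ℂ} (h : ∀ x ∉ closedBall (0 : ℂ) 2, f x = 0) (j : ℕ) (x : ℂ)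
    (hx : x ∉ closedBall (0 : ℂ) 2) : iteratedFDeriv ℝ j f x = 0 := by
  have h1 : tsupport f ⊆ closedBall (0 : ℂ) 2 := by
    refine closure_minimal ?_ isClosed_closedBall
    intro y hy
    by_contra hcon
    exact hy (h y hcon)
  by_contra hcon
  exact hx (h1 (support_iteratedFDeriv_subset j hcon))

theorem int_pow {f : ℂ → ℂ} (hf : ContDiff ℝ ∞ f) (hc : HasCompactSupport f) (k n : ℕ) :
    Integrable (fun v => ‖v‖ ^ k * ‖iteratedFDeriv ℝ n f v‖) := by
  have h1 : Continuous (iteratedFDeriv ℝ n f) :=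
    hf.continuous_iteratedFDeriv (by exact_mod_cast le_top)
  refine Continuous.integrable_of_hasCompactSupport (by fun_prop) ?_
  have h2 : HasCompactSupport (fun v => ‖iteratedFDeriv ℝ n f v‖) := (hc.iteratedFDeriv n).norm
  exact h2.mul_left

theorem int_iter_le {f : ℂ → ℂ} (hf : ContDiff ℝ ∞ f) (h : ∀ x ∉ closedBall (0 : ℂ) 2, f x = 0)
    (j : ℕ) (M : ℝ) (hM : ∀ x, ‖iteratedFDeriv ℝ j f x‖ ≤ M) :
    ∫ x, ‖iteratedFDeriv ℝ j f x‖ ≤ M * volume.real (closedBall (0 : ℂ) 2) := by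
  have h1 : ∫ x, ‖iteratedFDeriv ℝ j f x‖ =
      ∫ x in closedBall (0 : ℂ) 2, ‖iteratedFDeriv ℝ j f x‖ := by
    rw [setIntegral_eq_integral_of_forall_compl_eq_zero]
    intro x hx
    rw [iter_zero h j x hx, norm_zero]
  rw [h1]
  have h2 := norm_setIntegral_le_of_norm_le_const (μ := volume)
    (f := fun x => ‖iteratedFDeriv ℝ j f x‖) (s := closedBall (0 : ℂ) 2) (C := M)
    (isCompact_closedBall (0 : ℂ) 2).measure_lt_top (fun x _ => by
      rw [norm_norm]
      exact hM x)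
  exact (le_abs_self _).trans h2

theorem fourier_L1 : ∃ C : ℝ, 0 < C ∧ ∀ f : ℂ → ℂ, ContDiff ℝ ∞ f →
    (∀ x ∉ closedBall (0 : ℂ) 2, f x = 0) → ∀ M : ℝ, 0 ≤ M →
    (∀ j ≤ 3, ∀ x, ‖iteratedFDeriv ℝ j f x‖ ≤ M) → ∫ ξ, ‖𝓕 f ξ‖ ≤ C * M := by
  set V := volume.real (closedBall (0 : ℂ) 2) with hV
  have hV0 : 0 ≤ V := measureReal_nonneg
  set J := ∫ ξ : ℂ, (1 + ‖ξ‖) ^ (-(3 : ℝ)) with hJ
  have hJi : Integrable (fun ξ : ℂ => (1 + ‖ξ‖) ^ (-(3 : ℝ))) := by
    refine integrable_one_add_norm ?_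
    rw [Complex.finrank_real_complex]
    norm_num
  have hJ0 : 0 ≤ J := integral_nonneg fun ξ => by positivity
  refine ⟨132 * V * J + 1, by positivity, ?_⟩
  intro f hf h0 M hM hb
  have hc := hcs_of_zero h0
  have hpt : ∀ w : ℂ, ‖𝓕 f w‖ ≤ 132 * M * V * (1 + ‖w‖) ^ (-(3 : ℝ)) := by
    intro w
    have hf3 : ContDiff ℝ ((3 : ℕ∞) : ℕ∞ω) f := hf.of_le (by exact_mod_cast le_top)
    have hint : ∀ (k n : ℕ), (k : ℕ∞) ≤ (0 : ℕ∞) → (n : ℕ∞) ≤ (3 : ℕ∞) →
        Integrable (fun v => ‖v‖ ^ k * ‖iteratedFDeriv ℝ n f v‖) := fun k n _ _ =>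
      int_pow hf hc k n
    have e0 := Real.pow_mul_norm_iteratedFDeriv_fourier_le hf3 hint (k := 0) (n := 0)
      (by simp) (by simp) w
    have e3 := Real.pow_mul_norm_iteratedFDeriv_fourier_le hf3 hint (k := 0) (n := 3)
      (by simp) (by exact_mod_cast le_rfl) w
    simp only [pow_zero, one_mul, norm_iteratedFDeriv_zero, Nat.cast_zero, mul_zero, zero_add]
      at e0 e3
    have s0 : ∑ p ∈ Finset.range 1 ×ˢ Finset.range 1,
        ∫ v : ℂ, ‖v‖ ^ p.1 * ‖iteratedFDeriv ℝ p.2 f v‖ ≤ M * V := by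
      rw [Finset.sum_product]
      simp only [Finset.sum_range_one, pow_zero, one_mul]
      exact int_iter_le hf h0 0 M (hb 0 (by norm_num))
    have s3 : ∑ p ∈ Finset.range 1 ×ˢ Finset.range (3 + 1),
        ∫ v : ℂ, ‖v‖ ^ p.1 * ‖iteratedFDeriv ℝ p.2 f v‖ ≤ 4 * (M * V) := by
      rw [Finset.sum_product]
      simp only [Finset.sum_range_one, pow_zero, one_mul]
      calc ∑ j ∈ Finset.range (3 + 1), ∫ v : ℂ, ‖iteratedFDeriv ℝ j f v‖
          ≤ ∑ j ∈ Finset.range (3 + 1), M * V := by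
            refine Finset.sum_le_sum fun j hj => ?_
            exact int_iter_le hf h0 j M (hb j (by
              have := Finset.mem_range.1 hj
              omega))
        _ = 4 * (M * V) := by
            rw [Finset.sum_const, Finset.card_range]
            norm_num
    have e0' : ‖𝓕 f w‖ ≤ M * V := e0.trans s0
    have e3' : ‖w‖ ^ 3 * ‖𝓕 f w‖ ≤ 32 * (M * V) := by
      refine e3.trans ?_
      calc (2 : ℝ) ^ 3 * ∑ p ∈ Finset.range 1 ×ˢ Finset.range (3 + 1),
            ∫ v : ℂ, ‖v‖ ^ p.1 * ‖iteratedFDeriv ℝ p.2 f v‖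
          ≤ (2 : ℝ) ^ 3 * (4 * (M * V)) := by gcongr
        _ = 32 * (M * V) := by ring
    have hw := norm_nonneg w
    have hF := norm_nonneg (𝓕 f w)
    have h4 : (1 + ‖w‖) ^ 3 ≤ 4 * (1 + ‖w‖ ^ 3) := by
      nlinarith [mul_nonneg (add_nonneg zero_le_one hw) (sq_nonneg (‖w‖ - 1))]
    have h5 : (1 + ‖w‖) ^ 3 * ‖𝓕 f w‖ ≤ 132 * M * V := by
      calc (1 + ‖w‖) ^ 3 * ‖𝓕 f w‖ ≤ 4 * (1 + ‖w‖ ^ 3) * ‖𝓕 f w‖ := by gcongr
        _ = 4 * (‖𝓕 f w‖ + ‖w‖ ^ 3 * ‖𝓕 f w‖) := by ring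
        _ ≤ 4 * (M * V + 32 * (M * V)) := by gcongr
        _ = 132 * M * V := by ring
    rw [Real.rpow_neg (by positivity), ← div_eq_mul_inv, le_div_iff₀ (by positivity)]
    have h6 : (1 + ‖w‖) ^ (3 : ℝ) = (1 + ‖w‖) ^ 3 := by
      rw [← Real.rpow_natCast]
      norm_num
    rw [h6, mul_comm]
    exact h5
  calc ∫ ξ, ‖𝓕 f ξ‖ ≤ ∫ ξ : ℂ, 132 * M * V * (1 + ‖ξ‖) ^ (-(3 : ℝ)) := by
        refine integral_mono_of_nonneg (Eventually.of_forall fun ξ => norm_nonneg _)
          (hJi.const_mul _) (Eventually.of_forall hpt)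
    _ = 132 * M * V * J := integral_const_mul _ _
    _ ≤ (132 * V * J + 1) * M := by nlinarith

theorem deriv_bound (c g : ℂ → ℂ) (hc : ContDiff ℝ ∞ c) (hg : ContDiff ℝ ∞ g)
    (hc0 : ∀ x ∉ closedBall (0 : ℂ) 2, c x = 0) (hgc : HasCompactSupport g) (hg0 : g 0 = 0) :
    ∃ C : ℝ, 0 ≤ C ∧ ∀ s : ℝ, 0 < s → s ≤ 1 → ∀ j ≤ 3, ∀ x,
      ‖iteratedFDeriv ℝ j (fun x => c x * g (s • x)) x‖ ≤ C * s := by
  have hcc := hcs_of_zero hc0
  have hA : ∀ i : ℕ, ∃ A : ℝ, ∀ x, ‖iteratedFDeriv ℝ i c x‖ ≤ A := fun i =>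
    (hcc.iteratedFDeriv i).exists_bound_of_continuous
      (hc.continuous_iteratedFDeriv (by exact_mod_cast le_top))
  have hB : ∀ i : ℕ, ∃ A : ℝ, ∀ x, ‖iteratedFDeriv ℝ i g x‖ ≤ A := fun i =>
    (hgc.iteratedFDeriv i).exists_bound_of_continuous
      (hg.continuous_iteratedFDeriv (by exact_mod_cast le_top))
  choose A hA using hA
  choose B hB using hB
  obtain ⟨L, hL⟩ := hg.lipschitzWith_of_hasCompactSupport hgc (by simp)
  have hA0 : ∀ i, 0 ≤ A i := fun i => (norm_nonneg _).trans (hA i 0)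
  have hB0 : ∀ i, 0 ≤ B i := fun i => (norm_nonneg _).trans (hB i 0)
  have hL0 : (0 : ℝ) ≤ L := L.2
  set T : ℕ → ℕ → ℝ := fun j i => (j.choose i : ℝ) * A i * (B (j - i) + 2 * L) with hT
  have hT0 : ∀ j i, 0 ≤ T j i := fun j i => by
    have := hA0 i
    have := hB0 (j - i)
    simp only [hT]
    positivity
  refine ⟨∑ j ∈ Finset.range 4, ∑ i ∈ Finset.range (j + 1), T j i,
    Finset.sum_nonneg fun j _ => Finset.sum_nonneg fun i _ => hT0 j i, ?_⟩
  intro s hs hs1 j hj x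
  have hgs : ContDiff ℝ ∞ (fun x : ℂ => g (s • x)) := hg.comp (contDiff_const_smul s)
  have h1 := norm_iteratedFDeriv_mul_le hc hgs x (n := j) (by exact_mod_cast le_top)
  refine h1.trans ?_
  have h2 : ∑ i ∈ Finset.range (j + 1), (j.choose i : ℝ) * ‖iteratedFDeriv ℝ i c x‖ *
      ‖iteratedFDeriv ℝ (j - i) (fun x : ℂ => g (s • x)) x‖ ≤
      ∑ i ∈ Finset.range (j + 1), T j i * s := by
    refine Finset.sum_le_sum fun i _ => ?_
    by_cases hx : x ∈ closedBall (0 : ℂ) 2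
    · have hx2 : ‖x‖ ≤ 2 := by simpa using hx
      have h3 : ‖iteratedFDeriv ℝ (j - i) (fun x : ℂ => g (s • x)) x‖ ≤
          (B (j - i) + 2 * L) * s := by
        rcases Nat.eq_zero_or_pos (j - i) with h0 | h0
        · rw [h0, norm_iteratedFDeriv_zero]
          have h4 := hL.dist_le_mul (s • x) 0
          rw [hg0, dist_zero_right, dist_zero_right, norm_smul, Real.norm_of_nonneg hs.le] at h4
          have h5 := hB0 0
          calc ‖g (s • x)‖ ≤ L * (s * ‖x‖) := h4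
            _ ≤ L * (s * 2) := by gcongr
            _ ≤ (B 0 + 2 * L) * s := by nlinarith
        · have h4 : iteratedFDeriv ℝ (j - i) (fun x : ℂ => g (s • x)) x =
              s ^ (j - i) • iteratedFDeriv ℝ (j - i) g (s • x) := by
            have := iteratedFDeriv_comp_const_smul (𝕜 := ℝ) (i := j - i) s
              (contDiff_infty.1 hg (j - i))
            exact congrFun this x
          rw [h4, norm_smul, norm_pow, Real.norm_of_nonneg hs.le]
          have h5 : s ^ (j - i) ≤ s := pow_le_of_le_one hs.le hs1 (by omega)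
          have h6 := hB (j - i) (s • x)
          have h7 := hB0 (j - i)
          calc s ^ (j - i) * ‖iteratedFDeriv ℝ (j - i) g (s • x)‖ ≤ s * B (j - i) := by gcongr
            _ ≤ (B (j - i) + 2 * L) * s := by nlinarith
      have h4 := hA i x
      calc (j.choose i : ℝ) * ‖iteratedFDeriv ℝ i c x‖ *
            ‖iteratedFDeriv ℝ (j - i) (fun x : ℂ => g (s • x)) x‖
          ≤ (j.choose i : ℝ) * A i * ((B (j - i) + 2 * L) * s) := by
            have := hA0 i
            gcongr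
        _ = T j i * s := by simp only [hT]; ring
    · rw [iter_zero hc0 i x hx, norm_zero, mul_zero, zero_mul]
      exact mul_nonneg (hT0 j i) hs.le
  refine h2.trans ?_
  rw [← Finset.sum_mul]
  refine mul_le_mul_of_nonneg_right ?_ hs.le
  exact Finset.single_le_sum (f := fun j => ∑ i ∈ Finset.range (j + 1), T j i)
    (fun j _ => Finset.sum_nonneg fun i _ => hT0 j i) (Finset.mem_range.2 (by omega))

theorem sml : S_SML := by
  intro μ Ω z₀ hΩ hz₀ hμ ε hε
  obtain ⟨ρ, hρ, hball⟩ := Metric.isOpen_iff.1 hΩ z₀ hz₀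
  set r : ℝ := min (ρ / 4) 1 with hr
  have hr0 : 0 < r := lt_min (by positivity) one_pos
  have hr1 : r ≤ 1 := min_le_right _ _
  have hrρ : 4 * r ≤ ρ := by
    have := min_le_left (ρ / 4) 1
    linarith
  -- the global function
  set ψ : ContDiffBump (0 : ℂ) := ⟨2 * r, 3 * r, by positivity, by linarith⟩ with hψ
  set χ : ContDiffBump (0 : ℂ) := ⟨1, 2, one_pos, one_lt_two⟩ with hχ
  set g : ℂ → ℂ := fun x => ((ψ x : ℝ) : ℂ) * (μ (z₀ + x) - μ z₀) with hg
  set c : ℂ → ℂ := fun x => ((χ x : ℝ) : ℂ) with hc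
  have hcs : ContDiff ℝ ∞ c := Complex.ofRealCLM.contDiff.comp χ.contDiff
  have hc0 : ∀ x ∉ closedBall (0 : ℂ) 2, c x = 0 := by
    intro x hx
    have : χ x = 0 := χ.zero_of_le_dist (by
      rw [mem_closedBall, not_le] at hx
      exact hx.le)
    simp only [hc, this, Complex.ofReal_zero]
  have hg0' : ∀ x ∉ closedBall (0 : ℂ) (3 * r), g x = 0 := by
    intro x hx
    have : ψ x = 0 := ψ.zero_of_le_dist (by
      rw [mem_closedBall, not_le] at hx
      exact hx.le)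
    simp only [hg, this, Complex.ofReal_zero, zero_mul]
  have hgc : HasCompactSupport g :=
    HasCompactSupport.intro (isCompact_closedBall (0 : ℂ) (3 * r)) hg0'
  have hgs : ContDiff ℝ ∞ g := by
    rw [contDiff_iff_contDiffAt]
    intro x
    by_cases hx : x ∈ ball (0 : ℂ) (4 * r)
    · have h1 : ContDiffAt ℝ ∞ (fun x : ℂ => ((ψ x : ℝ) : ℂ)) x :=
        (Complex.ofRealCLM.contDiff.comp ψ.contDiff).contDiffAt
      have hmem : z₀ + x ∈ Ω := by
        apply hball
        rw [mem_ball, dist_eq_norm, add_sub_cancel_left]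
        have : ‖x‖ < 4 * r := by simpa using hx
        linarith
      have h2 : ContDiffAt ℝ ∞ μ (z₀ + x) := hμ.contDiffAt (hΩ.mem_nhds hmem)
      have h3 : ContDiffAt ℝ ∞ (fun x : ℂ => μ (z₀ + x)) x :=
        h2.comp x (contDiffAt_const.add contDiffAt_id)
      exact h1.mul (h3.sub contDiffAt_const)
    · have hopen : (closedBall (0 : ℂ) (3 * r))ᶜ ∈ 𝓝 x := by
        refine isClosed_closedBall.isOpen_compl.mem_nhds ?_
        intro hx2
        apply hx
        have : dist x 0 ≤ 3 * r := hx2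
        rw [mem_ball]
        linarith
      have h1 : g =ᶠ[𝓝 x] fun _ => (0 : ℂ) := by
        filter_upwards [hopen] with y hy
        exact hg0' y hy
      exact contDiffAt_const.congr_of_eventuallyEq h1
  have hg0 : g 0 = 0 := by simp [hg]
  obtain ⟨C, hC, HC⟩ := fourier_L1
  obtain ⟨C', hC', HC'⟩ := deriv_bound c g hcs hgs hc0 hgc hg0
  set s : ℝ := min r (ε / (C * (C' + 1))) with hs
  have hs0 : 0 < s := lt_min hr0 (by positivity)
  have hsr : s ≤ r := min_le_left _ _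
  have hs1 : s ≤ 1 := hsr.trans hr1
  have hsε : s ≤ ε / (C * (C' + 1)) := min_le_right _ _
  refine ⟨s, fun x => c x * g (s • x), hs0, ?_, ?_, ?_, ?_, ?_⟩
  · refine (ball_subset_ball ?_).trans hball
    linarith
  · exact hcs.mul (hgs.comp (contDiff_const_smul s))
  · exact hcs_of_zero fun x hx => by rw [hc0 x hx, zero_mul]
  · intro x hx
    have hx1 : ‖x‖ < 1 := by simpa using hx
    have h1 : c x = 1 := by
      have : χ x = 1 := χ.one_of_mem_closedBall (by
        rw [mem_closedBall, dist_zero_right]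
        exact hx1.le)
      simp only [hc, this, Complex.ofReal_one]
    have h2 : ψ (s • x) = 1 := ψ.one_of_mem_closedBall (by
      rw [mem_closedBall, dist_zero_right, norm_smul, Real.norm_of_nonneg hs0.le]
      show s * ‖x‖ ≤ 2 * r
      nlinarith [norm_nonneg x])
    show c x * g (s • x) = _
    rw [h1, one_mul]
    show ((ψ (s • x) : ℝ) : ℂ) * (μ (z₀ + s • x) - μ z₀) = _
    rw [h2, Complex.ofReal_one, one_mul, Complex.real_smul]
  · have h1 := HC (fun x => c x * g (s • x)) (hcs.mul (hgs.comp (contDiff_const_smul s)))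
      (fun x hx => by rw [hc0 x hx, zero_mul]) (C' * s) (by positivity)
      (fun j hj x => HC' s hs0 hs1 j hj x)
    refine h1.trans ?_
    rw [le_div_iff₀ (by positivity)] at hsε
    nlinarith [mul_pos hC hs0]

end Pool.Agent.W19.PSM
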